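import Pool.Agent.Helper61.QS.GoalsC

/-!
# Project QS (MP_0ebdb3_gt), packet EQ
-/

set_option autoImplicit false

namespace Pool.Agent.Helper4.QS

open Pool.Agent.Helper61.QS

theorem goalEQ : G_EQ := by
  intro k S a b ha hb hna hnb h
  have hYs : star ((a - b) - star (a - b)) = -((a - b) - star (a - b)) := by
    rw [star_sub, star_star]
    abel
  have hYS : ∀ s ∈ S, s * ((a - b) - star (a - b)) = ((a - b) - star (a - b)) * s := by
    intro s hs
    have h1 := ha.2 s hs
    have h2 := hb.2 s hs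
    have h3 := (UC.star_mem ha).2 s hs
    have h4 := (UC.star_mem hb).2 s hs
    rw [star_sub]
    simp only [mul_sub, sub_mul, h1, h2, h3, h4]
  have h1 := h _ hYs hYS
  have hYX : tr (((a - b) - star (a - b)) * (a - b)) = 0 := by
    rw [mul_sub, tr_sub, tr_mul_comm _ a, h1, sub_self]
  have hYX' : tr (((a - b) - star (a - b)) * star (a - b)) = 0 := by
    rw [← tr_star, star_mul, star_star, hYs, mul_neg, tr_neg, tr_mul_comm, hYX, neg_zero]
  have hYY : tr (((a - b) - star (a - b)) * ((a - b) - star (a - b))) = 0 := by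
    rw [mul_sub, tr_sub, hYX, hYX', sub_zero]
  have hY0 := eq_zero_of_skew _ hYs hYY
  have hD : a - b = star a - star b := by
    rw [← star_sub]
    exact sub_eq_zero.1 hY0
  have ha1 := UC.star_mul ha
  have ha2 := UC.mul_star ha
  have hb1 := UC.star_mul hb
  have hb2 := UC.mul_star hb
  have hD2 : a * (a - b) * b = -(a - b) := by
    calc a * (a - b) * b = a * (star a - star b) * b := by rw [← hD]
      _ = (a * star a) * b - a * (star b * b) := by noncomm_ring
      _ = -(a - b) := by rw [ha2, hb1]; noncomm_ring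
  have hD3 : (2 : ℝ) • (a - b) = -((a - 1) * (a - b) + a * (a - b) * (b - 1)) := by
    have h5 : (a - 1) * (a - b) + a * (a - b) * (b - 1) = a * (a - b) * b - (a - b) := by
      noncomm_ring
    rw [h5, hD2, two_smul]
    abel
  have hnorm : 2 * ‖a - b‖ ≤ (‖a - 1‖ + ‖b - 1‖) * ‖a - b‖ := by
    calc 2 * ‖a - b‖ = ‖(2 : ℝ) • (a - b)‖ := by rw [norm_smul]; norm_num
      _ = ‖(a - 1) * (a - b) + a * (a - b) * (b - 1)‖ := by rw [hD3, norm_neg]
      _ ≤ ‖(a - 1) * (a - b)‖ + ‖a * (a - b) * (b - 1)‖ := norm_add_le _ _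
      _ ≤ ‖a - 1‖ * ‖a - b‖ + (1 * ‖a - b‖) * ‖b - 1‖ := by
        refine add_le_add (norm_mul_le _ _) ((norm_mul_le _ _).trans ?_)
        refine mul_le_mul_of_nonneg_right ((norm_mul_le _ _).trans ?_) (norm_nonneg _)
        exact mul_le_mul_of_nonneg_right (UC.norm_le ha) (norm_nonneg _)
      _ = _ := by ring
  have h0 : ‖a - b‖ = 0 := by
    have h6 := norm_nonneg (a - b)
    by_contra hne
    have h7 : 0 < ‖a - b‖ := lt_of_le_of_ne h6 (Ne.symm hne)
    have h8 : (‖a - 1‖ + ‖b - 1‖) * ‖a - b‖ < 2 * ‖a - b‖ :=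
      mul_lt_mul_of_pos_right (by linarith) h7
    linarith
  exact sub_eq_zero.1 (norm_eq_zero.1 h0)

end Pool.Agent.Helper4.QS
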